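import Pool.Agent.H9.Hyp2

namespace Pool.Agent.Results.MP_84e5ad_an.Independent

open Pool.Agent.H9.Hyp2 NNReal

theorem result {𝕜 X : Type*} [RCLike 𝕜] [NormedAddCommGroup X] [NormedSpace 𝕜 X]
    [CompleteSpace X] [Nontrivial X] (T : ℝ≥0 → X →L[𝕜] X)
    (h0 : T 0 = ContinuousLinearMap.id 𝕜 X) (hadd : ∀ s t, T (s + t) = (T s).comp (T t))
    (hc : ∀ x, Continuous fun t => T t x) (z : X) (hz : Dense (Set.range fun t => T t z)) :
    LinearIndependent 𝕜 (fun t => T t z) ∧ LinearIndepOn 𝕜 id (Set.range fun t => T t z) := by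
  classical
  suffices h : LinearIndependent 𝕜 (fun t => T t z) from ⟨h, h.linearIndepOn_id⟩
  letI : NormedSpace ℝ X := NormedSpace.restrictScalars ℝ 𝕜 X
  haveI : IsScalarTower ℝ 𝕜 X := IsScalarTower.restrictScalars ℝ 𝕜 X
  rw [linearIndependent_iff']
  intro s g hs i hi
  by_contra hne
  let s' := s.filter fun j => g j ≠ 0
  have hs' : s'.Nonempty := ⟨i, Finset.mem_filter.2 ⟨hi, hne⟩⟩
  have hsum : ∑ j ∈ s', g j • T j z = 0 := by
    rw [← hs]
    exact Finset.sum_filter_of_ne fun j _ h h' => h (by rw [h', zero_smul])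
  set a := s'.min' hs' with ha
  set b := s'.max' hs' with hb
  let A : X →L[𝕜] X := ∑ j ∈ s', g j • T (j - a)
  have hA : A.restrictScalars ℝ = 0 := by
    obtain ⟨B, hB⟩ := (isCompact_Icc (a := (0 : ℝ≥0)) (b := a)).exists_bound_of_continuousOn
      (A.continuous.comp (hc z)).continuousOn
    refine zero_of_bdd _ _ hz B ?_
    rintro _ ⟨t, rfl⟩
    rcases le_total t a with h | h
    · exact hB t ⟨zero_le, h⟩
    · have : A (T t z) = T (t - a) (∑ j ∈ s', g j • T j z) := by
        simp only [A, sum_apply, smul_apply, map_sum, map_smul]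
        refine Finset.sum_congr rfl fun j hj => ?_
        have h1 : j - a + t = t - a + j := by
          have : a ≤ j := s'.min'_le j hj
          apply NNReal.eq
          push_cast [NNReal.coe_sub h, NNReal.coe_sub this]
          ring
        rw [← ContinuousLinearMap.comp_apply, ← hadd, h1, hadd, ContinuousLinearMap.comp_apply]
      show ‖A (T t z)‖ ≤ B
      rw [this, hsum, map_zero, norm_zero]
      exact (norm_nonneg _).trans (hB 0 ⟨le_rfl, zero_le⟩)
  obtain ⟨x0, hx0⟩ := exists_ne (0 : X)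
  obtain ⟨f, -, hf⟩ := exists_dual_vector' 𝕜 x0
  let ι := RCLike.map 𝕜 ℂ
  have ιmul : ∀ u v : 𝕜, ι (u * v) = ι u * ι v := by
    intro u v
    apply Complex.ext <;> simp [ι]
  have ιne : ∀ u : 𝕜, u ≠ 0 → ι u ≠ 0 := by
    intro u hu h
    refine hu (RCLike.ext ?_ ?_)
    · simpa [ι] using congrArg Complex.re h
    · simpa [ι] using congrArg Complex.im h
  have key := core (fun t : ℝ => (T t.toNNReal).restrictScalars ℝ) (fun x => by simp [h0])
    (fun s t hs ht x => by simp [Real.toNNReal_add hs ht, hadd])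
    (fun x => (hc x).comp continuous_real_toNNReal) z
    (hz.mono (by rintro _ ⟨t, rfl⟩; exact ⟨t, t.2, by simp⟩)) (ι.comp (f.restrictScalars ℝ))
    (s'.image fun j => ((j - a : ℝ≥0) : ℝ)) (fun τ => ι (g (τ.toNNReal + a))) (b - a : ℝ≥0)
    (Finset.mem_image.2 ⟨a, s'.min'_mem hs', by simp⟩)
    (Finset.mem_image.2 ⟨b, s'.max'_mem hs', rfl⟩) ?_ ?_ ?_ ?_
  · have := congrArg (fun φ => φ x0) key
    refine ιne _ ?_ this
    show f x0 ≠ 0
    rw [hf]
    simpa using hx0
  · intro τ hτ
    obtain ⟨j, hj, rfl⟩ := Finset.mem_image.1 hτ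
    exact ⟨NNReal.coe_nonneg _, NNReal.coe_le_coe.2 (tsub_le_tsub_right (s'.le_max' j hj) a)⟩
  · simpa using ιne _ (Finset.mem_filter.1 (s'.min'_mem hs')).2
  · rw [Real.toNNReal_coe, tsub_add_cancel_of_le (s'.min'_le _ (s'.max'_mem hs'))]
    exact ιne _ (Finset.mem_filter.1 (s'.max'_mem hs')).2
  · intro x
    rw [Finset.sum_image]
    · have h1 : A x = 0 := congrArg (fun φ => φ x) hA
      have h2 := congrArg (fun y => ι (f y)) h1
      simp only [A, sum_apply, smul_apply, map_sum, map_smul, map_zero, smul_eq_mul, ιmul] at h2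
      rw [← h2]
      refine Finset.sum_congr rfl fun j hj => ?_
      rw [Real.toNNReal_coe, tsub_add_cancel_of_le (s'.min'_le _ hj)]
      rfl
    · intro j hj k hk h
      have h' : j - a = k - a := NNReal.eq h
      rw [← tsub_add_cancel_of_le (s'.min'_le _ hj), ← ha, h', tsub_add_cancel_of_le (s'.min'_le _ hk)]

end Pool.Agent.Results.MP_84e5ad_an.Independent
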